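import Pool.Agent.H671R2.OOF.Final

/-!
# Completeness with a forest of small height
-/

set_option autoImplicit false

namespace Pool.Agent.Y403.OOF

open Pool.Agent.H671R2.OOF

/-- the ranks are at most seven -/
def chkR (t v h a : ℕ) : Bool := Nat.ble (rk t v h a) 7

theorem chkR_all : allb 3 (fun t => allb 3 fun v => allb 3 fun h =>
    !(okS t v h) || allb 229 (chkR t v h)) = true := by decide +kernel

theorem rk_le {t v h a : ℕ} (ht : t < 3) (hv : v < 3) (hh : h < 3) (ok : okS t v h = true)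
    (ha : a < 229) : rk t v h a ≤ 7 := by
  have := (allb_iff _ _).1 ((allb_iff _ _).1 ((allb_iff _ _).1 chkR_all t ht) v hv) h hh
  rw [ok] at this
  simp only [Bool.not_true, Bool.false_or] at this
  have h1 := (allb_iff _ _).1 this a ha
  unfold chkR at h1
  exact Nat.le_of_ble_eq_true h1

variable {n m : ℕ} {ty : ℕ → ℕ → ℕ} {h v : ℕ → ℕ}

theorem gr_le (hn : 0 < n) (hty : ∀ i j, ty i j < 3) (hh : ∀ i, h i < 3) (hv : ∀ j, v j < 3)
    (ok : ∀ i < n, ∀ j < m, okS (ty i j) (v j) (h i) = true) (d : Da n m) :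
    gr n m ty h v (tn n m ty d) ≤ 8 := by
  have key : ∀ i < n, ∀ j < m, ∀ a < 229, gr n m ty h v (vt n m i j a) ≤ 8 := by
    intro i hi j hj a ha
    rw [gr_vt hi hj ha (hty i j) (hv j) (hh i) (ok i hi j hj)]
    have := rk_le (hty i j) (hv j) (hh i) (ok i hi j hj) ha
    omega
  rcases d with ⟨i, j, e⟩ | ⟨b, j, s, t⟩
  · rw [tn_tile]
    exact key i i.2 j j.2 _ (tl_lt (hty i j) e.2)
  · have hs := s.2
    refine case3 (P := fun t => gr n m ty h v (tn n m ty (Sum.inr (b, j, s, t))) ≤ 8) ?_ ?_ ?_ t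
    · cases b
      · rw [tn_top]
        exact key 0 hn j j.2 _ (by omega)
      · rw [tn_bot]
        exact key (n - 1) (by omega) j j.2 _ (by omega)
    · cases b
      · rw [tn_top']
        exact key 0 hn j j.2 _ (by omega)
      · rw [tn_bot']
        exact key (n - 1) (by omega) j j.2 _ (by omega)
    · rw [tn_pole, gr_pole]
      norm_num

/-- The grid has a good colouring, with a forest of height at most eight, if the wires have
colours compatible with the tiles. -/
theorem grid_complete8 (n m : ℕ) (ty : ℕ → ℕ → ℕ) (hn : 0 < n) (hm : 2 ≤ m)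
    (hty : ∀ i j, ty i j < 3) (h v : ℕ → Fin 3)
    (H : ∀ i < n, ∀ j < m, (ty i j = 1 → h i = v j) ∧ (ty i j = 2 → h i ≠ v j)) :
    ∃ (c : Fin (n * m * 220 + 4 * m + 2) → Fin 3) (r p : Fin (n * m * 220 + 4 * m + 2) → ℕ),
      (∀ x y, (grid n m ty hn hm hty).graph.Adj x y → c x = c y → c x = 2) ∧
      (∀ x, r x ≤ 8) ∧
      ∀ x y, (grid n m ty hn hm hty).graph.Adj x y → c x = 2 → c y = 2 →
        ((p y = x ∧ r x < r y) ∨ (p x = y ∧ r y < r x)) := by
  set h' : ℕ → ℕ := fun i => (h i : ℕ) with hh'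
  set v' : ℕ → ℕ := fun j => (v j : ℕ) with hv'
  have ok : ∀ i < n, ∀ j < m, okS (ty i j) (v' j) (h' i) = true := by
    intro i hi j hj
    obtain ⟨h1, h2⟩ := H i hi j hj
    exact okS_iff (hty i j) (fun ht => by rw [hh', hv']; simp only; rw [h1 ht])
      (fun ht he => h2 ht (Fin.ext he))
  have hlt1 : ∀ i, h' i < 3 := fun i => (h i).2
  have hlt2 : ∀ j, v' j < 3 := fun j => (v j).2
  have hclt : ∀ x : Fin (n * m * 220 + 4 * m + 2), gc n m ty h' v' x < 3 := by
    intro x
    obtain ⟨d, hd⟩ := tn_surj hn hm hty x.2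
    rw [← hd]
    exact gc_lt hn hty hlt1 hlt2 ok d
  have hedge : ∀ x y, (grid n m ty hn hm hty).graph.Adj x y → EdgeOk n m ty h' v' x y := by
    intro x y hxy
    obtain ⟨d, h1, h2⟩ := (grid_adj n m ty hn hm hty x y).1 hxy
    rw [← h1, ← h2]
    exact edge_ok hn hty hlt1 hlt2 ok d
  refine ⟨fun x => ⟨gc n m ty h' v' x, hclt x⟩, fun x => gr n m ty h' v' x,
    fun x => gp n m ty h' v' x, ?_, ?_, ?_⟩
  · intro x y hxy hc
    have hc' : gc n m ty h' v' x = gc n m ty h' v' y := Fin.val_eq_of_eq hc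
    exact Fin.ext (hedge x y hxy hc').1
  · intro x
    obtain ⟨d, hd⟩ := tn_surj hn hm hty x.2
    simp only
    rw [← hd]
    exact gr_le hn hty hlt1 hlt2 ok d
  · intro x y hxy hx hy
    have c1 : gc n m ty h' v' x = 2 := Fin.val_eq_of_eq hx
    have c2 : gc n m ty h' v' y = 2 := Fin.val_eq_of_eq hy
    exact (hedge x y hxy (c1.trans c2.symm)).2

end Pool.Agent.Y403.OOF
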