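import Pool.Agent.Y403.OOF.Snd
import Pool.Agent.Y403.OOF.Cmp

/-!
# Classes of graphs between forests of bounded height and graphs of girth at least six
-/

set_option autoImplicit false

namespace Pool.Agent.Y403.OOF

open Pool.Agent.H671R2.OOF

/-- `H` has a path with `k` vertices `g 0, …, g (k - 1)`. -/
def HasPath {W : Type} (H : SimpleGraph W) (k : ℕ) : Prop :=
  ∃ g : ℕ → W, Set.InjOn g {i | i < k} ∧ ∀ i, i + 1 < k → H.Adj (g i) (g (i + 1))

/-- `H` has a cycle with `k` vertices `g 0, …, g (k - 1)` (for `k ≥ 3`). -/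
def HasCycle {W : Type} (H : SimpleGraph W) (k : ℕ) : Prop :=
  ∃ g : ℕ → W, Set.InjOn g {i | i < k} ∧ (∀ i, i + 1 < k → H.Adj (g i) (g (i + 1))) ∧
    H.Adj (g (k - 1)) (g 0)

/-- A class of graphs. -/
abbrev GraphClass : Type 1 := ∀ W : Type, SimpleGraph W → Prop

/-- The vertex set of `G` has a partition into two independent sets and a set which induces a graph
of the class `P`. -/
def HasPartitionInto {V : Type} (P : GraphClass) (G : SimpleGraph V) : Prop :=
  ∃ A B F : Set V, A ∪ B ∪ F = Set.univ ∧ Disjoint A B ∧ Disjoint A F ∧ Disjoint B F ∧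
    Edgeless (G.induce A) ∧ Edgeless (G.induce B) ∧ P F (G.induce F)

/-- The class `P` contains all finite forests in which every path has at most 17 vertices, and no
finite graph of `P` has a cycle of length three, four or five. -/
def Between (P : GraphClass) : Prop :=
  (∀ (W : Type) (H : SimpleGraph W), Finite W → OneDegenerate H → ¬ HasPath H 18 → P W H) ∧
  ∀ (W : Type) (H : SimpleGraph W), Finite W → P W H →
    ¬ HasCycle H 3 ∧ ¬ HasCycle H 4 ∧ ¬ HasCycle H 5

theorem oneDeg {W : Type} [Finite W] (H : SimpleGraph W) (r p f : W → ℕ)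
    (hf : Function.Injective f)
    (h : ∀ x y, H.Adj x y → (p y = f x ∧ r x < r y) ∨ (p x = f y ∧ r y < r x)) :
    OneDegenerate H := by
  classical
  intro K hK
  obtain ⟨v, hv, hmax⟩ := (Set.toFinite K.verts).exists_maximalFor r K.verts hK
  refine ⟨v, hv, ?_⟩
  have key : ∀ a, K.Adj v a → p v = f a := by
    intro a ha
    rcases h v a (K.adj_sub ha) with ⟨_, h2⟩ | ⟨h1, _⟩
    · have := hmax (K.edge_vert ha.symm) h2.le
      omega
    · exact h1
  intro a ha b hb
  exact hf ((key a ha).symm.trans (key b hb))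

theorem noPath {W : Type} (H : SimpleGraph W) (r p f : W → ℕ)
    (hf : Function.Injective f) (hr : ∀ x, r x ≤ 8)
    (h : ∀ x y, H.Adj x y → (p y = f x ∧ r x < r y) ∨ (p x = f y ∧ r y < r x)) :
    ¬ HasPath H 18 := by
  rintro ⟨g, hg, hadj⟩
  have up : ∀ i, i + 2 < 18 → r (g i) < r (g (i + 1)) → r (g (i + 1)) < r (g (i + 2)) := by
    intro i hi hlt
    rcases h _ _ (hadj i (by omega)) with ⟨h1, _⟩ | ⟨_, h2⟩
    · rcases h _ _ (hadj (i + 1) (by omega)) with ⟨_, h4⟩ | ⟨h3, _⟩
      · exact h4
      · exfalso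
        have h5 := hf (h1.symm.trans h3)
        have h6 := hg (show i ∈ {i | i < 18} by simp only [Set.mem_ofPred_eq]; omega)
          (show i + 1 + 1 ∈ {i | i < 18} by simp only [Set.mem_ofPred_eq]; omega) h5
        omega
    · omega
  have dn : ∀ i, i + 1 < 18 → r (g i) < r (g (i + 1)) ∨ r (g (i + 1)) < r (g i) := by
    intro i hi
    rcases h _ _ (hadj i hi) with ⟨_, h1⟩ | ⟨_, h1⟩
    · exact Or.inl h1
    · exact Or.inr h1
  rcases dn 8 (by omega) with h8 | h8
  · have k : ∀ t, t ≤ 8 → r (g (8 + t)) < r (g (8 + t + 1)) ∧ t ≤ r (g (8 + t)) := by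
      intro t
      induction t with
      | zero => intro _; exact ⟨h8, Nat.zero_le _⟩
      | succ t ih =>
        intro ht
        obtain ⟨i1, i2⟩ := ih (by omega)
        have e : 8 + (t + 1) = 8 + t + 1 := by omega
        rw [e]
        exact ⟨up (8 + t) (by omega) i1, by omega⟩
    obtain ⟨k1, k2⟩ := k 8 le_rfl
    have := hr (g (8 + 8 + 1))
    omega
  · have k : ∀ t, t ≤ 8 → r (g (9 - t)) < r (g (8 - t)) ∧ t ≤ r (g (9 - t)) := by
      intro t
      induction t with
      | zero => intro _; exact ⟨h8, Nat.zero_le _⟩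
      | succ t ih =>
        intro ht
        obtain ⟨i1, i2⟩ := ih (by omega)
        have e1 : 9 - (t + 1) = 8 - t := by omega
        have e2 : 8 - t = (8 - (t + 1)) + 1 := by omega
        have e3 : 9 - t = (8 - (t + 1)) + 2 := by omega
        rw [e1]
        refine ⟨?_, by omega⟩
        rcases dn (8 - (t + 1)) (by omega) with h9 | h9
        · have := up _ (by omega) h9
          rw [← e2, ← e3] at this
          omega
        · rw [← e2] at h9
          exact h9
    obtain ⟨k1, k2⟩ := k 8 le_rfl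
    have := hr (g (8 - 8))
    omega

theorem forest_noCycle {W : Type} (H : SimpleGraph W) (hH : OneDegenerate H) (k : ℕ) (hk : 3 ≤ k) :
    ¬ HasCycle H k := by
  rintro ⟨g, hg, hadj, hcl⟩
  obtain ⟨v, hv, hsub⟩ := hH ((⊤ : H.Subgraph).induce (g '' {i | i < k}))
    ⟨g 0, ⟨0, by simp only [Set.mem_ofPred_eq]; omega, rfl⟩⟩
  obtain ⟨i, hi, rfl⟩ := hv
  have hi' : i < k := hi
  have mem : ∀ j < k, g j ∈ g '' {i | i < k} := fun j hj => ⟨j, hj, rfl⟩
  -- the next vertex
  have h1 : ∃ a < k, H.Adj (g i) (g a) ∧ (a = i + 1 ∨ (a = 0 ∧ i = k - 1)) := by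
    rcases Nat.lt_or_ge (i + 1) k with h | h
    · exact ⟨i + 1, h, hadj i h, Or.inl rfl⟩
    · refine ⟨0, by omega, ?_, Or.inr ⟨rfl, by omega⟩⟩
      rw [show i = k - 1 by omega]
      exact hcl
  have h2 : ∃ a < k, H.Adj (g i) (g a) ∧ (a + 1 = i ∨ (a = k - 1 ∧ i = 0)) := by
    rcases Nat.eq_zero_or_pos i with h | h
    · refine ⟨k - 1, by omega, ?_, Or.inr ⟨rfl, h⟩⟩
      rw [h]
      exact hcl.symm
    · refine ⟨i - 1, by omega, ?_, Or.inl (by omega)⟩
      have := hadj (i - 1) (by omega)
      rw [show i - 1 + 1 = i by omega] at this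
      exact this.symm
  obtain ⟨a, ha, haa, hac⟩ := h1
  obtain ⟨b, hb, hba, hbc⟩ := h2
  have e : g a = g b := hsub
    (by exact ⟨mem i hi', mem a ha, haa⟩) (by exact ⟨mem i hi', mem b hb, hba⟩)
  have := hg (show a ∈ {i | i < k} from ha) (show b ∈ {i | i < k} from hb) e
  omega

/-- The class of forests is in the range. -/
theorem between_forests : Between (fun _ H => OneDegenerate H) :=
  ⟨fun _ _ _ h _ => h, fun _ H _ h => ⟨forest_noCycle H h 3 le_rfl,
    forest_noCycle H h 4 (by norm_num), forest_noCycle H h 5 (by norm_num)⟩⟩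

theorem g5_of {V : Type} (G : SimpleGraph V) (A B F : Set V) (hU : A ∪ B ∪ F = Set.univ)
    (hA : Edgeless (G.induce A)) (hB : Edgeless (G.induce B))
    (h3 : ¬ HasCycle (G.induce F) 3) (h4 : ¬ HasCycle (G.induce F) 4)
    (h5 : ¬ HasCycle (G.induce F) 5) : ∃ c, G5 G c := by
  classical
  have hF : ∀ v, (if v ∈ A then (0 : Fin 3) else if v ∈ B then 1 else 2) = 2 → v ∈ F := by
    intro v h
    have hvA : v ∉ A := by
      intro hv'
      simp [hv'] at h
    have hvB : v ∉ B := by
      intro hv'
      simp [hvA, hv'] at h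
    have : v ∈ A ∪ B ∪ F := by rw [hU]; trivial
    rcases this with (h1 | h1) | h1
    · exact absurd h1 hvA
    · exact absurd h1 hvB
    · exact h1
  refine ⟨fun v => if v ∈ A then 0 else if v ∈ B then 1 else 2, ?_, ?_, ?_, ?_⟩
  · intro u v huv hc
    by_cases huA : u ∈ A
    · exfalso
      simp only [huA, if_true] at hc
      have hvA : v ∈ A := by
        by_contra h
        rw [if_neg h] at hc
        split_ifs at hc <;> exact absurd hc (by decide)
      exact hA ⟨u, huA⟩ ⟨v, hvA⟩ huv
    · by_cases huB : u ∈ B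
      · exfalso
        simp only [huA, huB, if_true, if_false] at hc
        have hvB : v ∈ B := by
          by_contra h
          rw [if_neg h] at hc
          split_ifs at hc <;> exact absurd hc (by decide)
        exact hB ⟨u, huB⟩ ⟨v, hvB⟩ huv
      · simp [huA, huB]
  · intro x y z hxy hyz hzx cx cy cz
    refine h3 ⟨fun i => if i = 0 then ⟨x, hF x cx⟩ else if i = 1 then ⟨y, hF y cy⟩ else
      ⟨z, hF z cz⟩, ?_, ?_, ?_⟩
    · intro i hi j hj hij
      have hi' : i < 3 := hi
      have hj' : j < 3 := hj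
      have e1 := hxy.ne
      have e2 := hyz.ne
      have e3 := hzx.ne
      interval_cases i <;> interval_cases j <;>
        simp_all
    · intro i hi
      have hi' : i + 1 < 3 := hi
      have : i < 2 := by omega
      interval_cases i
      · exact hxy
      · exact hyz
    · exact hzx
  · intro x y z w hxy hyz hzw hwx nxz nyw cx cy cz cw
    refine h4 ⟨fun i => if i = 0 then ⟨x, hF x cx⟩ else if i = 1 then ⟨y, hF y cy⟩ else
      if i = 2 then ⟨z, hF z cz⟩ else ⟨w, hF w cw⟩, ?_, ?_, ?_⟩
    · intro i hi j hj hij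
      have hi' : i < 4 := hi
      have hj' : j < 4 := hj
      have e1 := hxy.ne
      have e2 := hyz.ne
      have e3 := hzw.ne
      have e4 := hwx.ne
      interval_cases i <;> interval_cases j <;>
        simp_all
    · intro i hi
      have : i < 3 := by omega
      interval_cases i
      · exact hxy
      · exact hyz
      · exact hzw
    · exact hwx
  · intro x y z w t hxy hyz hzw hwt htx nxz nxw nyw nyt nzt cx cy cz cw ct
    refine h5 ⟨fun i => if i = 0 then ⟨x, hF x cx⟩ else if i = 1 then ⟨y, hF y cy⟩ else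
      if i = 2 then ⟨z, hF z cz⟩ else if i = 3 then ⟨w, hF w cw⟩ else ⟨t, hF t ct⟩, ?_, ?_, ?_⟩
    · intro i hi j hj hij
      have hi' : i < 5 := hi
      have hj' : j < 5 := hj
      have e1 := hxy.ne
      have e2 := hyz.ne
      have e3 := hzw.ne
      have e4 := hwt.ne
      have e5 := htx.ne
      interval_cases i <;> interval_cases j <;>
        simp_all
    · intro i hi
      have : i < 4 := by omega
      interval_cases i
      · exact hxy
      · exact hyz
      · exact hzw
      · exact hwt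
    · exact htx

end Pool.Agent.Y403.OOF
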