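import Pool.Agent.H671R2.OOF.Final

/-!
# Soundness with forbidden cycles of length at most five

Adapted from the starting files `H671R2/OOF/Sound`, `GridSound` and `Red`: only cycles of length
three, four and five in the third colour are used.
-/

set_option autoImplicit false
set_option synthInstance.maxSize 100000

namespace Pool.Agent.Y403.OOF

open Pool.Agent.H671R2.OOF Pool.Agent.NPC Pool.Agent.NPC.R671 Pool.Agent.H692R2

/-- A colouring in which the colours `0` and `1` are independent and the colour `2` has no cycle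
of length three, four or five. -/
structure G5 {V : Type} (G : SimpleGraph V) (c : V → Fin 3) : Prop where
  ind : ∀ u v, G.Adj u v → c u = c v → c u = 2
  c3 : ∀ x y z, G.Adj x y → G.Adj y z → G.Adj z x → c x = 2 → c y = 2 → c z = 2 → False
  c4 : ∀ x y z w, G.Adj x y → G.Adj y z → G.Adj z w → G.Adj w x → x ≠ z → y ≠ w →
    c x = 2 → c y = 2 → c z = 2 → c w = 2 → False
  c5 : ∀ x y z w t, G.Adj x y → G.Adj y z → G.Adj z w → G.Adj w t → G.Adj t x →
    x ≠ z → x ≠ w → y ≠ w → y ≠ t → z ≠ t →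
    c x = 2 → c y = 2 → c z = 2 → c w = 2 → c t = 2 → False

theorem frag_lemma5 {V : Type} (G : SimpleGraph V) (c : V → Fin 3) (hc : G5 G c) (q : ℕ → V)
    (hinj : ∀ a < 10, ∀ b < 10, q a = q b → a = b)
    (hA : ∀ p ∈ sEA, G.Adj (q p.1) (q p.2)) : ¬ (c (q 6) = 2 ∧ c (q 9) = 2) := by
  rintro ⟨h6, h9⟩
  have hE : ∀ p ∈ sEA, c (q p.1) = c (q p.2) → c (q p.1) = 2 := fun p hp h =>
    hc.ind _ _ (hA p hp) h
  have ne : ∀ a b : ℕ, a < 10 → b < 10 → a ≠ b → q a ≠ q b := fun a b ha hb hab h =>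
    hab (hinj a ha b hb h)
  have e02 : G.Adj (q 0) (q 2) := hA (0, 2) (by decide)
  have e04 : G.Adj (q 0) (q 4) := hA (0, 4) (by decide)
  have e05 : G.Adj (q 0) (q 5) := hA (0, 5) (by decide)
  have e08 : G.Adj (q 0) (q 8) := hA (0, 8) (by decide)
  have e16 : G.Adj (q 1) (q 6) := hA (1, 6) (by decide)
  have e19 : G.Adj (q 1) (q 9) := hA (1, 9) (by decide)
  have e24 : G.Adj (q 2) (q 4) := hA (2, 4) (by decide)
  have e26 : G.Adj (q 2) (q 6) := hA (2, 6) (by decide)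
  have e28 : G.Adj (q 2) (q 8) := hA (2, 8) (by decide)
  have e35 : G.Adj (q 3) (q 5) := hA (3, 5) (by decide)
  have e38 : G.Adj (q 3) (q 8) := hA (3, 8) (by decide)
  have e39 : G.Adj (q 3) (q 9) := hA (3, 9) (by decide)
  have e45 : G.Adj (q 4) (q 5) := hA (4, 5) (by decide)
  have e46 : G.Adj (q 4) (q 6) := hA (4, 6) (by decide)
  have e59 : G.Adj (q 5) (q 9) := hA (5, 9) (by decide)
  have e67 : G.Adj (q 6) (q 7) := hA (6, 7) (by decide)
  have e69 : G.Adj (q 6) (q 9) := hA (6, 9) (by decide)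
  have e79 : G.Adj (q 7) (q 9) := hA (7, 9) (by decide)
  have e89 : G.Adj (q 8) (q 9) := hA (8, 9) (by decide)
  have Z02569 : ¬(c (q 0) = 2 ∧ c (q 2) = 2 ∧ c (q 5) = 2) := fun ⟨a0, a2, a5⟩ =>
    hc.c5 (q 0) (q 2) (q 6) (q 9) (q 5) e02 e26 e69 e59.symm e05.symm
      (ne _ _ (by decide) (by decide) (by decide)) (ne _ _ (by decide) (by decide) (by decide))
      (ne _ _ (by decide) (by decide) (by decide)) (ne _ _ (by decide) (by decide) (by decide))
      (ne _ _ (by decide) (by decide) (by decide)) a0 a2 h6 h9 a5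
  have Z04689 : ¬(c (q 0) = 2 ∧ c (q 4) = 2 ∧ c (q 8) = 2) := fun ⟨a0, a4, a8⟩ =>
    hc.c5 (q 0) (q 4) (q 6) (q 9) (q 8) e04 e46 e69 e89.symm e08.symm
      (ne _ _ (by decide) (by decide) (by decide)) (ne _ _ (by decide) (by decide) (by decide))
      (ne _ _ (by decide) (by decide) (by decide)) (ne _ _ (by decide) (by decide) (by decide))
      (ne _ _ (by decide) (by decide) (by decide)) a0 a4 h6 h9 a8
  have Z0589 : ¬(c (q 0) = 2 ∧ c (q 5) = 2 ∧ c (q 8) = 2) := fun ⟨a0, a5, a8⟩ =>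
    hc.c4 (q 0) (q 5) (q 9) (q 8) e05 e59 e89.symm e08.symm
      (ne _ _ (by decide) (by decide) (by decide)) (ne _ _ (by decide) (by decide) (by decide))
      a0 a5 h9 a8
  have Z169 : ¬(c (q 1) = 2) := fun a1 =>
    hc.c3 (q 1) (q 6) (q 9) e16 e69 e19.symm a1 h6 h9
  have Z246 : ¬(c (q 2) = 2 ∧ c (q 4) = 2) := fun ⟨a2, a4⟩ =>
    hc.c3 (q 2) (q 4) (q 6) e24 e46 e26.symm a2 a4 h6
  have Z2689 : ¬(c (q 2) = 2 ∧ c (q 8) = 2) := fun ⟨a2, a8⟩ =>
    hc.c4 (q 2) (q 6) (q 9) (q 8) e26 e69 e89.symm e28.symm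
      (ne _ _ (by decide) (by decide) (by decide)) (ne _ _ (by decide) (by decide) (by decide))
      a2 h6 h9 a8
  have Z359 : ¬(c (q 3) = 2 ∧ c (q 5) = 2) := fun ⟨a3, a5⟩ =>
    hc.c3 (q 3) (q 5) (q 9) e35 e59 e39.symm a3 a5 h9
  have Z389 : ¬(c (q 3) = 2 ∧ c (q 8) = 2) := fun ⟨a3, a8⟩ =>
    hc.c3 (q 3) (q 8) (q 9) e38 e89 e39.symm a3 a8 h9
  have Z4569 : ¬(c (q 4) = 2 ∧ c (q 5) = 2) := fun ⟨a4, a5⟩ =>
    hc.c4 (q 4) (q 5) (q 9) (q 6) e45 e59 e69.symm e46.symm
      (ne _ _ (by decide) (by decide) (by decide)) (ne _ _ (by decide) (by decide) (by decide))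
      a4 a5 h9 h6
  have Z679 : ¬(c (q 7) = 2) := fun a7 =>
    hc.c3 (q 6) (q 7) (q 9) e67 e79 e69.symm h6 a7 h9
  exact frag_check _ Z169 _ Z679 _ (hE (1, 2) (by decide)) _ (hE (1, 8) (by decide))
    (hE (2, 8) (by decide)) Z2689 _ (hE (2, 4) (by decide)) (hE (4, 7) (by decide)) Z246 _
    (hE (4, 5) (by decide)) (hE (5, 7) (by decide)) Z4569 _ (hE (0, 2) (by decide))
    (hE (0, 4) (by decide)) (hE (0, 5) (by decide)) (hE (0, 8) (by decide)) Z02569 Z04689 Z0589 _
    (hE (0, 3) (by decide)) (hE (3, 5) (by decide)) (hE (3, 8) (by decide)) Z359 Z389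

/-- Soundness of a tile. -/
theorem tile_sound5 {V : Type} (G : SimpleGraph V) (c : V → Fin 3) (hc : G5 G c) (τ : ℕ)
    (hτ : τ < 3) (g : ℕ → V) (hinj : ∀ a < 229, ∀ b < 229, g a = g b → a = b)
    (hadj : ∀ e < 1320, G.Adj (g (tl τ e)) (g (hd τ e))) :
    c (g 2) = c (g 10) ∧ c (g 6) = c (g 14) ∧ (τ = 1 → c (g 6) = c (g 2)) ∧
      (τ = 2 → c (g 6) ≠ c (g 2)) := by
  have hE : ∀ u v, sfe τ u v = true → G.Adj (g u) (g v) := by
    intro u v h
    obtain ⟨e, he, rfl, rfl⟩ := sfe_sound h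
    exact hadj e he
  -- the strong edges
  have hF : ∀ f < 24, c (g (fr τ f 1)) ≠ c (g (fr τ f 2)) := by
    intro f hf
    have h1 := (allb_iff 24 _).1 ((allb_iff 3 _).1 schk_all τ hτ) f hf
    unfold schk at h1
    rw [Bool.and_eq_true, List.all_eq_true, allb_iff] at h1
    obtain ⟨h1, h2⟩ := h1
    have h3 : ∀ a < 10, svt τ f a < 229 := by
      intro a ha
      have := h2 a ha
      rw [Bool.and_eq_true, Nat.blt_eq] at this
      exact this.1
    have h4 : ∀ a < 10, ∀ b < 10, svt τ f a = svt τ f b → a = b := by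
      intro a ha b hb hab
      have := h2 a ha
      rw [Bool.and_eq_true, allb_iff] at this
      have := this.2 b hb
      rw [Bool.or_eq_true, Nat.beq_eq, hab] at this
      rcases this with h | h
      · exact h
      · simp at h
    have h5 : ∀ p ∈ sEA, G.Adj (g (svt τ f p.1)) (g (svt τ f p.2)) := fun p hp =>
      hE _ _ (h1 p hp)
    have h6 := frag_lemma5 G c hc (fun r => g (svt τ f r))
      (fun a ha b hb h => h4 a ha b hb (hinj _ (h3 a ha) _ (h3 b hb) h)) h5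
    have h7 : svt τ f 6 = fr τ f 1 := rfl
    have h8 : svt τ f 9 = fr τ f 2 := rfl
    simp only [h7, h8] at h6
    intro h
    have h9 := hc.ind _ _ (h5 (6, 9) (by decide)) (by simp only [h7, h8]; exact h)
    simp only [h7] at h9
    exact h6 ⟨h9, by rw [← h]; exact h9⟩
  have hS : ∀ p ∈ sSP, c (g p.1) ≠ c (g p.2) := by
    intro p hp
    have h1 := (allb_iff 3 _).1 ssE_all τ hτ
    rw [List.all_eq_true] at h1
    have h2 := h1 p hp
    unfold ssE at h2
    rw [List.any_eq_true] at h2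
    obtain ⟨f, hf, h3⟩ := h2
    have hf' := hF f (List.mem_range.1 hf)
    simp only [Bool.or_eq_true, Bool.and_eq_true, Nat.beq_eq] at h3
    rcases h3 with ⟨ha, hb⟩ | ⟨ha, hb⟩
    · rw [ha, hb] at hf'; exact hf'
    · rw [ha, hb] at hf'; exact hf'.symm
  have key := core_check (c (g 16)) (c (g 21)) (hS (16, 21) (by decide)) (c (g 22))
    (hS (16, 22) (by decide)) (hS (21, 22) (by decide)) (c (g 23)) (hS (16, 23) (by decide))
    (hS (22, 23) (by decide)) (c (g 24)) (hS (16, 24) (by decide)) (hS (23, 24) (by decide))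
    (hS (24, 21) (by decide)) (c (g 2)) (hS (2, 21) (by decide)) (c (g 17))
    (hS (2, 17) (by decide)) (hS (17, 21) (by decide)) (c (g 6)) (hS (6, 22) (by decide))
    (hS (6, 17) (by decide)) (c (g 18)) (hS (6, 18) (by decide)) (hS (18, 22) (by decide))
    (c (g 10)) (hS (10, 23) (by decide)) (hS (10, 18) (by decide)) (c (g 19))
    (hS (10, 19) (by decide)) (hS (19, 23) (by decide)) (c (g 14)) (hS (14, 24) (by decide))
    (hS (14, 19) (by decide)) (c (g 20)) (hS (14, 20) (by decide)) (hS (20, 24) (by decide))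
    (hS (2, 20) (by decide))
  obtain ⟨k1, k2, k3, k4⟩ := key
  refine ⟨k1, k2, ?_, ?_⟩
  · intro h
    subst h
    have h1 := sw1_all
    rw [List.all_eq_true] at h1
    have h2 : ∀ p ∈ [(6, 21), (10, 22), (14, 23), (2, 24)], c (g p.1) = c (g p.2) →
        c (g p.1) = 2 := fun p hp h => hc.ind _ _ (hE _ _ (h1 p hp)) h
    exact k3 (h2 (6, 21) (by decide)) (h2 (10, 22) (by decide)) (h2 (14, 23) (by decide))
      (h2 (2, 24) (by decide))
  · intro h
    subst h
    have h1 := sw2_all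
    rw [List.all_eq_true] at h1
    have h2 : ∀ p ∈ [(17, 22), (18, 23), (19, 24), (20, 21)], c (g p.1) = c (g p.2) →
        c (g p.1) = 2 := fun p hp h => hc.ind _ _ (hE _ _ (h1 p hp)) h
    exact k4 (h2 (17, 22) (by decide)) (h2 (18, 23) (by decide)) (h2 (19, 24) (by decide))
      (h2 (20, 21) (by decide))


theorem grid_sound5 (n m : ℕ) (ty : ℕ → ℕ → ℕ) (hn : 0 < n) (hm : 2 ≤ m)
    (hty : ∀ i j, ty i j < 3) (c : Fin (n * m * 220 + 4 * m + 2) → Fin 3)
    (hc : G5 (grid n m ty hn hm hty).graph c) :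
    ∃ h v : ℕ → Fin 3, ∀ i < n, ∀ j < m,
      (ty i j = 1 → h i = v j) ∧ (ty i j = 2 → h i ≠ v j) := by
  let V := Fin (n * m * 220 + 4 * m + 2)
  let w : ℕ → V := fun x => if h : x < n * m * 220 + 4 * m + 2 then ⟨x, h⟩ else ⟨0, by omega⟩
  have hw : ∀ x, x < n * m * 220 + 4 * m + 2 → ((w x : V) : ℕ) = x := by
    intro x hx
    simp only [w]
    rw [dif_pos hx]
  have tile : ∀ i < n, ∀ j < m,
      c (w (vt n m i j 2)) = c (w (vt n m i j 10)) ∧
      c (w (vt n m i j 6)) = c (w (vt n m i j 14)) ∧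
      (ty i j = 1 → c (w (vt n m i j 6)) = c (w (vt n m i j 2))) ∧
      (ty i j = 2 → c (w (vt n m i j 6)) ≠ c (w (vt n m i j 2))) := by
    intro i hi j hj
    have hlt : ∀ a < 229, vt n m i j a < n * m * 220 + 4 * m + 2 := fun a ha => by
      have := vt_lt hi hj ha
      omega
    refine tile_sound5 (grid n m ty hn hm hty).graph c hc (ty i j) (hty i j)
      (fun a => w (vt n m i j a)) ?_ ?_
    · intro a ha b hb hab
      have h1 := congrArg Fin.val hab
      rw [hw _ (hlt a ha), hw _ (hlt b hb)] at h1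
      exact vt_inj hm hi hj ha hb h1
    · intro e he
      rw [grid_adj]
      refine ⟨Sum.inl (⟨i, hi⟩, ⟨j, hj⟩, ⟨e, he⟩), ?_, ?_⟩
      · rw [hw _ (hlt _ (tl_lt (hty i j) he)), tn_tile]
      · rw [hw _ (hlt _ (hd_lt (hty i j) he)), tn_tile']
  have hv : ∀ j < m, ∀ i < n, c (w (vt n m i j 2)) = c (w (vt n m 0 j 2)) := by
    intro j hj i
    induction i with
    | zero => intro _; rfl
    | succ i ih =>
      intro hi
      rw [← ih (by omega), (tile i (by omega) j hj).1]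
      rw [show (10 : ℕ) = 12 - 2 from rfl, vt_up (show 2 ≤ 4 by norm_num)]
  have hh : ∀ i < n, ∀ j < m, c (w (vt n m i j 14)) = c (w (vt n m i 0 14)) := by
    intro i hi j
    induction j with
    | zero => intro _; rfl
    | succ j ih =>
      intro hj
      rw [← ih (by omega), ← (tile i hi j (by omega)).2.1]
      have h1 := vt_right (n := n) (m := m) (i := i) (j := j) (a := 6) (by norm_num) (by norm_num)
      rw [Nat.mod_eq_of_lt hj] at h1
      rw [← h1]
  refine ⟨fun i => c (w (vt n m i 0 14)), fun j => c (w (vt n m 0 j 2)), fun i hi j hj => ?_⟩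
  obtain ⟨_, h2, h3, h4⟩ := tile i hi j hj
  rw [h2, hh i hi j hj, hv j hj i hi] at h3 h4
  exact ⟨h3, h4⟩


theorem gr_sound5 (E : List (ℕ × ℕ)) (hE : PrB E) (h : ∃ c, G5 (redG E) c) : Col 3 E := by
  obtain ⟨c, hc⟩ := h
  obtain ⟨h, v, H⟩ := grid_sound5 _ _ _ _ _ _ c hc
  refine ⟨h, fun e he => ?_⟩
  obtain ⟨j, hj, rfl⟩ := List.getElem_of_mem he
  obtain ⟨h0, h1, h2⟩ := hE _ (List.getElem_mem hj)
  have hed : ed E j = E[j] := by
    unfold ed
    rw [List.getD_eq_getElem?_getD, List.getElem?_eq_getElem hj, Option.getD_some]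
  have hj' : j < colsN E := by unfold colsN; omega
  have a1 := (H E[j].1 (by unfold rows; omega) j hj').1 (by unfold tyE; rw [hed, if_pos rfl])
  have a2 := (H E[j].2 (by unfold rows; omega) j hj').2 (by
    unfold tyE
    rw [hed, if_neg (fun h => h0 h.symm), if_pos rfl])
  intro h3
  apply a2
  rw [← h3, a1]


end Pool.Agent.Y403.OOF
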